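import Pool.Agent.H490R3.SP.N2
import Pool.Agent.H673R2.OneOne.Fp

/-!
# The separation property of `NP`: the final argument
-/

set_option autoImplicit false

namespace Pool.Agent.H490R3.SP

open Pool.Agent.NPC Pool.Agent.H628R3.RO MeasureTheory

theorem N3_all_iff {m c : ℕ} {w : List Bool} {A : Oracle} :
    ((Pool.Agent.H628R3.RO.asks m c w).map A).all (fun b => b) = true ↔ Hit m (c, w) A := by
  unfold Pool.Agent.H628R3.RO.asks Hit
  simp only [List.map_map, List.all_eq_true, List.mem_map, List.mem_range, Function.comp]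
  constructor
  · intro h i hi
    exact h _ ⟨i, hi, rfl⟩
  · rintro h _ ⟨i, hi, rfl⟩
    exact h i hi

theorem N3_BB {l₀ i : ℕ} {X : Oracle} {x : List Bool} : x ∈ BB l₀ i X ↔
    l₀ ≤ x.length ∧ ∃ v : List Bool, v.length = x.length ∧ Hit (mN x.length) (i, x ++ v) X := by
  unfold BB En NoHit
  simp only [Set.mem_ofPred_eq, not_forall, not_not]
  refine and_congr_right fun _ => ?_
  constructor
  · rintro ⟨κ, hκ, h⟩
    obtain ⟨h1, h2, h3⟩ := N1_mem hκ
    refine ⟨κ.2.drop x.length, ?_, ?_⟩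
    · rw [List.length_drop, h2]
      omega
    · have h4 : x ++ κ.2.drop x.length = κ.2 := by
        conv_rhs => rw [← List.take_append_drop x.length κ.2]
        rw [h3]
      rw [h4, ← h1]
      exact h
  · rintro ⟨v, hv, h⟩
    exact ⟨(i, x ++ v), N1_mem' hv, h⟩

theorem N3_upoly {α : Type} [TEnc α] {m : α → ℕ} (hm : UPoly m) : UPoly (fun a => mN (m a)) := by
  unfold mN
  have h1 : Poly (fun a => m a - m a / 3) :=
    Poly.sub hm.toPoly (Poly.div hm.toPoly (NPC.Poly.const 3))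
  exact UPoly.add hm (UPoly.of_le h1 hm fun a => Nat.sub_le _ _)

theorem N3_NP (l₀ i : ℕ) (X : Oracle) : IsNP X (BB l₀ i X) := by
  refine isNP_of_tt X _
    (Q := fun p => Pool.Agent.H628R3.RO.asks (mN p.1.length) i (p.1 ++ p.2))
    (T := fun p => (decide (l₀ ≤ p.1.1.length) && decide (p.1.2.length = p.1.1.length)) &&
      p.2.all (fun b => b)) ?_ ?_ Polynomial.X fun x => ?_
  · exact p_asks (N3_upoly (UPoly.length (Poly.fst Poly.id))) (UPoly.const i)
      (Poly.append (Poly.fst Poly.id) (Poly.snd Poly.id))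
  · have h1 : Poly (fun p : (List Bool × List Bool) × List Bool => p.1.1) :=
      Poly.fst (Poly.fst Poly.id)
    have h2 : Poly (fun p : (List Bool × List Bool) × List Bool => p.1.2) :=
      Poly.snd (Poly.fst Poly.id)
    exact Poly.and (Poly.and (Poly.decide_le (NPC.Poly.const l₀) (Poly.length h1))
      (Poly.decide_eq (Poly.length h2) (Poly.length h1)))
      (Poly.all (p := fun _ b => b) (Poly.snd Poly.id) (Poly.snd Poly.id))
  · simp only [Bool.and_eq_true, decide_eq_true_eq, Polynomial.eval_X]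
    rw [N3_BB]
    constructor
    · rintro ⟨h1, v, hv, h⟩
      exact ⟨v, hv.le, ⟨h1, hv⟩, N3_all_iff.2 h⟩
    · rintro ⟨v, -, ⟨h1, hv⟩, h⟩
      exact ⟨h1, v, hv, N3_all_iff.1 h⟩

theorem N3_zero (h2 : S_TWO) (h3 : S_NUM) (V V' : Alg) (p p' : Polynomial ℕ) (l₀ : ℕ) :
    prob {X : Oracle | ∀ n ≥ l₀, X ∈ Gn V V' p p' n} = 0 := by
  set S : Set Oracle := {X : Oracle | ∀ n ≥ l₀, X ∈ Gn V V' p p' n} with hS
  have hSm : MeasurableSet S := by
    have h : S = ⋂ n, ⋂ (_ : n ≥ l₀), Gn V V' p p' n := by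
      ext X
      simp [hS]
    rw [h]
    exact MeasurableSet.iInter fun n => MeasurableSet.iInter fun _ => N2_measGn V V' p p' n
  by_contra hne
  have hpos : 0 < prob S := lt_of_le_of_ne (M2.prob_nonneg S) (Ne.symm hne)
  obtain ⟨t, L, hτ, hL⟩ := exists_cyl hSm hpos (δ := 1 / 200) (by norm_num)
  obtain ⟨n, hn1, hn2⟩ :=
    ((N2_STG h2 h3 V V' p p' t).and (Filter.eventually_ge_atTop l₀)).exists
  have hs := hn1 L
  have h2 : prob (S ∩ cyl t L) ≤ prob (Gn V V' p p' n ∩ cyl t L) :=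
    M2.prob_mono (Set.inter_subset_inter_left _ (fun X hX => hX n hn2))
  linarith

theorem N3_ZER (h2 : S_TWO) (h3 : S_NUM) :
    ∀ᵐ X ∂randomOracle, ∀ (V V' : Alg) (p p' : Polynomial ℕ) (l₀ : ℕ),
      ¬ ∀ n ≥ l₀, X ∈ Gn V V' p p' n := by
  have hp : Countable (Polynomial ℕ) := by
    have : Function.Injective (fun p : Polynomial ℕ => (p.toFinsupp.coeff : ℕ →₀ ℕ)) := by
      intro p q h
      ext n
      exact DFunLike.congr_fun h n
    exact this.countable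
  have h : ∀ᵐ X ∂randomOracle, ∀ m : (Alg × Alg) × (Polynomial ℕ × Polynomial ℕ) × ℕ,
      ¬ ∀ n ≥ m.2.2, X ∈ Gn m.1.1 m.1.2 m.2.1.1 m.2.1.2 n := by
    rw [ae_all_iff]
    intro m
    rw [ae_iff]
    have h0 := N3_zero h2 h3 m.1.1 m.1.2 m.2.1.1 m.2.1.2 m.2.2
    unfold prob at h0
    rw [measureReal_eq_zero_iff] at h0
    simpa only [not_not] using h0
  filter_upwards [h] with X hX V V' p p' l₀
  exact hX ((V, V'), (p, p'), l₀)

/-- both cells of some string of length `n` are not empty -/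
def N3_bad (n : ℕ) : Set Oracle := {X | ∃ x ∈ St n, X ∈ (En 0 x)ᶜ ∩ (En 1 x)ᶜ}

theorem N3_prob_bad (n : ℕ) : prob (N3_bad n) ≤ (1 / 2) ^ (n / 3) := by
  have h1 : N3_bad n = ⋃ x ∈ St n, (En 0 x)ᶜ ∩ (En 1 x)ᶜ := by
    ext X
    simp only [N3_bad, Set.mem_ofPred_eq, Set.mem_iUnion, exists_prop]
  have h2 : prob (N3_bad n) ≤ ∑ x ∈ St n, prob ((En 0 x)ᶜ ∩ (En 1 x)ᶜ) := by
    rw [h1]
    unfold prob
    exact measureReal_biUnion_finset_le _ _
  have hu : prob Set.univ = 1 := by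
    unfold prob
    exact probReal_univ
  have h3 : ∀ x ∈ St n, prob ((En 0 x)ᶜ ∩ (En 1 x)ᶜ) = rN n ^ 2 := by
    intro x hx
    have h := N1_PR2 (n := n) (t := 0) (τ := Set.univ) (fun _ _ _ => Iff.rfl) (Nat.zero_le n)
      (i := 0) (i' := 1) (STG_mem.1 hx) (STG_mem.1 hx) (by simp)
    rw [Set.univ_inter, hu, one_mul] at h
    exact h
  rw [Finset.sum_congr rfl h3, Finset.sum_const, STG_card, nsmul_eq_mul] at h2
  push_cast at h2
  exact h2.trans (N2_sum n)

theorem N3_BC : ∀ᵐ X ∂randomOracle, ∃ l₀ : ℕ, Disjoint (BB l₀ 0 X) (BB l₀ 1 X) := by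
  have hs : Summable (fun n : ℕ => (1 / 2 : ℝ) ^ (n / 3)) := by
    have h0 : Summable (fun n : ℕ => 2 * ((1 / 2 : ℝ) ^ ((1 : ℝ) / 3)) ^ n) := by
      apply Summable.mul_left
      apply summable_geometric_of_lt_one (by positivity)
      exact Real.rpow_lt_one (by norm_num) (by norm_num) (by norm_num)
    refine Summable.of_nonneg_of_le (fun n => by positivity) (fun n => ?_) h0
    have h1 : ((1 / 2 : ℝ) ^ ((1 : ℝ) / 3)) ^ n = (1 / 2 : ℝ) ^ ((n : ℝ) / 3) := by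
      rw [← Real.rpow_natCast, ← Real.rpow_mul (by norm_num)]
      congr 1
      ring
    rw [h1]
    have h2 : (1 / 2 : ℝ) ^ (n / 3) = (1 / 2 : ℝ) ^ (((n / 3 : ℕ) : ℝ)) := by
      rw [Real.rpow_natCast]
    rw [h2]
    have h3 : (2 : ℝ) * (1 / 2 : ℝ) ^ ((n : ℝ) / 3) = (1 / 2 : ℝ) ^ (-1 + (n : ℝ) / 3) := by
      rw [Real.rpow_add (by norm_num), Real.rpow_neg_one]; norm_num
    rw [h3]
    apply Real.rpow_le_rpow_of_exponent_ge (by norm_num) (by norm_num)
    have h4 : n < 3 * (n / 3) + 3 := by omega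
    have h5 : (n : ℝ) < 3 * ((n / 3 : ℕ) : ℝ) + 3 := by exact_mod_cast h4
    linarith
  have hsum : ∑' n : ℕ, randomOracle (N3_bad n) ≠ ⊤ := by
    have hle : ∀ n : ℕ, randomOracle (N3_bad n) ≤ ENNReal.ofReal ((1 / 2) ^ (n / 3)) := by
      intro n
      rw [← ENNReal.ofReal_toReal (measure_ne_top randomOracle _)]
      exact ENNReal.ofReal_le_ofReal (N3_prob_bad n)
    refine ne_top_of_le_ne_top ?_ (ENNReal.tsum_le_tsum hle)
    rw [← ENNReal.ofReal_tsum_of_nonneg (fun l => by positivity) hs]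
    exact ENNReal.ofReal_ne_top
  filter_upwards [ae_eventually_notMem hsum] with X hX
  obtain ⟨l₀, hl₀⟩ := Filter.eventually_atTop.1 hX
  refine ⟨l₀, Set.disjoint_left.2 ?_⟩
  rintro x ⟨hx, h0⟩ ⟨_, h1⟩
  exact hl₀ x.length hx ⟨x, STG_mem.2 rfl, h0, h1⟩

/-- `NP` does not have the separation property -/
theorem main_np (h2 : S_TWO) (h3 : S_NUM) : ∀ᵐ X ∂randomOracle, ¬ NPSep X := by
  filter_upwards [N3_BC, N3_ZER h2 h3] with X ⟨l₀, hd⟩ hz hsep
  obtain ⟨C, hC1, hC2, hC3, hC4⟩ := hsep _ _ (N3_NP l₀ 0 X) (N3_NP l₀ 1 X) hd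
  obtain ⟨V, p, hV⟩ := ZER_np hC1
  obtain ⟨V', p', hV'⟩ := ZER_np hC2
  refine hz V V' p p' l₀ fun n hn x hx => ⟨?_, ?_, ?_⟩
  · rw [← hV x, ← hV' x, Set.mem_compl_iff, not_not]
  · intro h
    exact (hV x).1 (hC3 ⟨by omega, h⟩)
  · intro h
    refine (hV' x).1 ?_
    rw [Set.mem_compl_iff]
    exact Set.disjoint_left.1 hC4 ⟨by omega, h⟩

end Pool.Agent.H490R3.SP
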