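import Pool.Agent.H490R3.SP.Stm

/-!
# BC: almost surely the two sets are disjoint from some length on
-/

set_option autoImplicit false

namespace Pool.Agent.H490R3.SP

open Pool.Agent.NPC Pool.Agent.H628R3.RO MeasureTheory

theorem BC_mem_St (x : List Bool) : x ∈ St x.length := by
  unfold St
  rw [Finset.mem_image]
  exact ⟨x.get, Finset.mem_univ _, List.ofFn_get x⟩

theorem BC_len {n : ℕ} {x : List Bool} (h : x ∈ St n) : x.length = n := by
  unfold St at h
  rw [Finset.mem_image] at h
  obtain ⟨v, -, rfl⟩ := h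
  exact List.length_ofFn

theorem BC_card (n : ℕ) : (St n).card ≤ 2 ^ n := by
  unfold St
  refine Finset.card_image_le.trans ?_
  rw [Finset.card_univ]
  simp

theorem BC_pair (hPR : S_PR) {n : ℕ} {x : List Bool} (hx : x.length = n) :
    prob (Em 0 x ∩ Em 1 x) = pe n ^ 2 := by
  have h := (hPR n 0 Set.univ (fun _ _ _ => Iff.rfl) (Nat.zero_le n) 0 x hx).2 1 x hx
    (by norm_num) (by norm_num) (by simp)
  have h1 : prob Set.univ = 1 := by
    unfold prob
    haveI : IsProbabilityMeasure randomOracle := by unfold randomOracle; infer_instance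
    exact probReal_univ
  rwa [Set.univ_inter, h1, one_mul] at h

theorem t_BC : S_PR → S_NUM → S_BC := by
  intro hPR hNUM
  haveI : IsProbabilityMeasure randomOracle := by unfold randomOracle; infer_instance
  obtain ⟨n0, hn0⟩ := Filter.eventually_atTop.1 hNUM.2.2
  set B : ℕ → Set Oracle := fun n => if n0 ≤ n then ⋃ x ∈ St n, (Em 0 x ∩ Em 1 x) else ∅ with hB
  have hle : ∀ n : ℕ, randomOracle (B n) ≤ ENNReal.ofReal ((3 / 4) ^ n) := by
    intro n
    by_cases hn : n0 ≤ n
    · have h1 : ∀ x ∈ St n, randomOracle (Em 0 x ∩ Em 1 x) = ENNReal.ofReal (pe n ^ 2) := by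
        intro x hx
        rw [← BC_pair hPR (BC_len hx)]
        unfold prob Measure.real
        rw [ENNReal.ofReal_toReal (measure_ne_top randomOracle _)]
      have hBn : B n = ⋃ x ∈ St n, (Em 0 x ∩ Em 1 x) := by
        simp only [hB]; rw [if_pos hn]
      rw [hBn]
      calc randomOracle (⋃ x ∈ St n, (Em 0 x ∩ Em 1 x))
          ≤ ∑ x ∈ St n, randomOracle (Em 0 x ∩ Em 1 x) := measure_biUnion_finset_le _ _
        _ = ∑ x ∈ St n, ENNReal.ofReal (pe n ^ 2) := Finset.sum_congr rfl h1
        _ = ((St n).card : ENNReal) * ENNReal.ofReal (pe n ^ 2) := by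
            rw [Finset.sum_const, nsmul_eq_mul]
        _ ≤ ((2 ^ n : ℕ) : ENNReal) * ENNReal.ofReal (pe n ^ 2) := by
            refine mul_le_mul_left ?_ _
            exact_mod_cast BC_card n
        _ = ENNReal.ofReal (2 ^ n * pe n ^ 2) := by
            rw [ENNReal.ofReal_mul (by positivity)]
            congr 1
            rw [← ENNReal.ofReal_natCast]
            congr 1
            push_cast
            rfl
        _ ≤ ENNReal.ofReal ((3 / 4) ^ n) := ENNReal.ofReal_le_ofReal (hn0 n hn)
    · have hBn : B n = ∅ := by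
        simp only [hB]; rw [if_neg hn]
      rw [hBn, measure_empty]
      exact zero_le
  have hsum : ∑' n : ℕ, randomOracle (B n) ≠ ⊤ := by
    refine ne_top_of_le_ne_top ?_ (ENNReal.tsum_le_tsum hle)
    rw [← ENNReal.ofReal_tsum_of_nonneg (fun l => by positivity)
      (summable_geometric_of_lt_one (by norm_num) (by norm_num))]
    exact ENNReal.ofReal_ne_top
  unfold S_BC
  filter_upwards [ae_eventually_notMem hsum] with X hX
  obtain ⟨N, hN⟩ := Filter.eventually_atTop.1 hX
  refine ⟨max N n0, ?_⟩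
  rw [Set.disjoint_left]
  rintro x ⟨hx1, hx2⟩ ⟨-, hx3⟩
  have h1 : N ≤ x.length := (le_max_left _ _).trans hx1
  have h2 : n0 ≤ x.length := (le_max_right _ _).trans hx1
  apply hN x.length h1
  simp only [hB]
  rw [if_pos h2]
  exact Set.mem_biUnion (BC_mem_St x) ⟨hx2, hx3⟩

end Pool.Agent.H490R3.SP
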