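import Pool.Agent.H490R3.SP.Stm
import Pool.Agent.H673R2.OneOne.Fp

/-!
# Task NPC: the sets `AA l₀ i X` are in `coNP` relative to `X`
-/

set_option autoImplicit false

namespace Pool.Agent.H490R3.SP

open Pool.Agent.NPC Pool.Agent.H628R3.RO

theorem NPC_mem_compl (l₀ i : ℕ) (X : Oracle) (x : List Bool) :
    x ∈ (AA l₀ i X)ᶜ ↔ x.length < l₀ ∨ ∃ k < x.length, ∃ v : List Bool, v.length = x.length ∧
      Hit (x.length + 1) (2 * k + i, x ++ v) X := by
  have h1 : x ∈ (AA l₀ i X)ᶜ ↔ x.length < l₀ ∨ X ∉ Em i x := by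
    simp only [AA, Set.mem_compl_iff, Set.mem_ofPred_eq, not_and_or, not_le]
  rw [h1]
  refine or_congr_right ?_
  unfold Em
  rw [not_mem_noHit]
  unfold cell
  constructor
  · rintro ⟨⟨c, u⟩, hκ, hH⟩
    rw [Finset.mem_product] at hκ
    obtain ⟨hc, hu⟩ := hκ
    obtain ⟨k, hk, hkc⟩ := Finset.mem_image.1 hc
    obtain ⟨v, -, hvu⟩ := Finset.mem_image.1 hu
    simp only at hkc hvu
    refine ⟨k, Finset.mem_range.1 hk, List.ofFn v, List.length_ofFn, ?_⟩
    rw [hkc, hvu]
    exact hH
  · rintro ⟨k, hk, v, hv, hH⟩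
    refine ⟨(2 * k + i, x ++ v), ?_, hH⟩
    rw [Finset.mem_product]
    refine ⟨Finset.mem_image.2 ⟨k, Finset.mem_range.2 hk, rfl⟩, ?_⟩
    refine Finset.mem_image.2 ⟨fun j => v.get (j.cast hv.symm), Finset.mem_univ _, ?_⟩
    have e : List.ofFn (fun j : Fin x.length => v.get (j.cast hv.symm)) = v := by
      apply List.ext_getElem
      · rw [List.length_ofFn, hv]
      · intro j h1 h2
        simp
    simp only [e]

theorem t_NPC : S_NPC := by
  intro l₀ i X
  refine isNP_of_tt X (AA l₀ i X)ᶜ
    (Q := fun p => asks (p.1.length + 1) (2 * (unpair p.2).1.length + i) (p.1 ++ (unpair p.2).2))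
    (T := fun p => decide (p.1.1.length < l₀) ||
      ((decide ((unpair p.1.2).1.length < p.1.1.length) &&
        decide ((unpair p.1.2).2.length = p.1.1.length)) && p.2.all id)) ?_ ?_
    (3 * Polynomial.X + 1) fun x => ?_
  · have h1 : Poly (fun p : List Bool × List Bool => p.1) := Poly.fst Poly.id
    have h2 : Poly (fun p : List Bool × List Bool => unpair p.2) :=
      poly_unpair.comp (Poly.snd Poly.id)
    exact p_asks (UPoly.add (UPoly.length h1) (UPoly.const 1))
      (UPoly.add (UPoly.mul (UPoly.const 2) (UPoly.length (Poly.fst h2))) (UPoly.const i))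
      (Poly.append h1 (Poly.snd h2))
  · have h1 : Poly (fun p : (List Bool × List Bool) × List Bool => p.1.1) :=
      Poly.fst (Poly.fst Poly.id)
    have h2 : Poly (fun p : (List Bool × List Bool) × List Bool => unpair p.1.2) :=
      poly_unpair.comp (Poly.snd (Poly.fst Poly.id))
    exact Poly.or (Poly.decide_lt (Poly.length h1) (NPC.Poly.const l₀))
      (Poly.and (Poly.and (Poly.decide_lt (Poly.length (Poly.fst h2)) (Poly.length h1))
        (Poly.decide_eq (Poly.length (Poly.snd h2)) (Poly.length h1)))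
        (p_all_id (Poly.snd Poly.id)))
  · rw [NPC_mem_compl]
    simp only [Bool.and_eq_true, Bool.or_eq_true, decide_eq_true_eq, asks_all]
    constructor
    · rintro (h | ⟨k, hk, v, hv, hH⟩)
      · exact ⟨[], by simp, Or.inl h⟩
      · refine ⟨pairBits (List.replicate k true) v, ?_, Or.inr ?_⟩
        · have e : (pairBits (List.replicate k true) v).length = 2 * k + 1 + v.length := by
            simp only [pairBits, List.length_append, List.length_flatMap, List.length_cons,
              List.length_nil, List.map_replicate, List.sum_replicate, smul_eq_mul]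
            omega
          rw [e, hv]
          simp only [Polynomial.eval_add, Polynomial.eval_mul, Polynomial.eval_X,
            Polynomial.eval_one, Polynomial.eval_ofNat]
          omega
        · simp only [unpair_pairBits, List.length_replicate]
          exact ⟨⟨hk, hv⟩, hH⟩
    · rintro ⟨w, -, h | ⟨⟨hk, hv⟩, hH⟩⟩
      · exact Or.inl h
      · exact Or.inr ⟨_, hk, _, hv, hH⟩

end Pool.Agent.H490R3.SP
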