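import Pool.Agent.H490R3.SP.Stm

/-! Numerical estimates for the separation property of coNP relative to a random oracle. -/

set_option autoImplicit false

namespace Pool.Agent.H490R3.SP

theorem NUM_tendsto (T : Polynomial ℕ) :
    Filter.Tendsto (fun n : ℕ => ((T.eval n : ℕ) : ℝ) * (1 / 2 : ℝ) ^ n) Filter.atTop (nhds 0) := by
  induction T using Polynomial.induction_on' with
  | add p q hp hq =>
    have h := hp.add hq
    rw [add_zero] at h
    refine h.congr fun n => ?_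
    rw [Polynomial.eval_add]
    push_cast
    ring
  | monomial k a =>
    have h := (tendsto_pow_const_mul_const_pow_of_abs_lt_one k
      (r := (1 / 2 : ℝ)) (by rw [abs_of_pos] <;> norm_num)).const_mul (a : ℝ)
    rw [mul_zero] at h
    refine h.congr fun n => ?_
    rw [Polynomial.eval_monomial]
    push_cast
    ring

theorem NUM_qN (n : ℕ) : ((n * 2 ^ n : ℕ) : ℝ) * (1 / 2 : ℝ) ^ (n + 1) = n / 2 := by
  push_cast
  rw [pow_succ, one_div, inv_pow]
  have h : (2 : ℝ) ^ n ≠ 0 := by positivity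
  field_simp

theorem NUM_two (n : ℕ) (hn : 3 ≤ n) : 1 ≤ 2 ^ n * pe n := by
  have hq0 : (0 : ℝ) < (1 / 2 : ℝ) ^ (n + 1) := by positivity
  have hq1 : (1 / 2 : ℝ) ^ (n + 1) ≤ 1 / 16 := by
    calc (1 / 2 : ℝ) ^ (n + 1) ≤ (1 / 2 : ℝ) ^ 4 :=
          pow_le_pow_of_le_one (by norm_num) (by norm_num) (by omega)
      _ = 1 / 16 := by norm_num
  have hN := NUM_qN n
  unfold pe
  set q : ℝ := (1 / 2 : ℝ) ^ (n + 1) with hq
  set N : ℕ := n * 2 ^ n with hNdef
  have h1 : (0 : ℝ) < 1 - q := by linarith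
  have h2 : 1 ≤ (1 - q) * Real.exp (q / (1 - q)) := by
    have h3 := Real.add_one_le_exp (q / (1 - q))
    have h4 : (1 - q) * (q / (1 - q) + 1) = 1 := by
      field_simp
      ring
    calc (1 : ℝ) = (1 - q) * (q / (1 - q) + 1) := h4.symm
      _ ≤ (1 - q) * Real.exp (q / (1 - q)) := mul_le_mul_of_nonneg_left h3 h1.le
  have h5 : 1 ≤ ((1 - q) * Real.exp (q / (1 - q))) ^ N := one_le_pow₀ h2
  rw [mul_pow, ← Real.exp_nat_mul] at h5
  have h6 : (N : ℝ) * (q / (1 - q)) ≤ n * Real.log 2 := by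
    have h7 : (N : ℝ) * (q / (1 - q)) = (n / 2 : ℝ) / (1 - q) := by
      rw [← hN]; ring
    rw [h7, div_le_iff₀ h1]
    have h8 := Real.log_two_gt_d9
    have h9 : (0 : ℝ) ≤ n := Nat.cast_nonneg n
    have h10 : (1 / 2 : ℝ) ≤ Real.log 2 * (1 - q) := by nlinarith
    nlinarith
  have h11 : Real.exp ((N : ℝ) * (q / (1 - q))) ≤ 2 ^ n := by
    calc Real.exp ((N : ℝ) * (q / (1 - q))) ≤ Real.exp (n * Real.log 2) := Real.exp_le_exp.2 h6
      _ = 2 ^ n := by rw [Real.exp_nat_mul, Real.exp_log (by norm_num)]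
  calc (1 : ℝ) ≤ (1 - q) ^ N * Real.exp ((N : ℝ) * (q / (1 - q))) := h5
    _ ≤ (1 - q) ^ N * 2 ^ n := mul_le_mul_of_nonneg_left h11 (pow_nonneg h1.le N)
    _ = 2 ^ n * (1 - q) ^ N := mul_comm _ _

theorem NUM_three (n : ℕ) : 2 ^ n * pe n ^ 2 ≤ (3 / 4) ^ n := by
  have hq0 : (0 : ℝ) < (1 / 2 : ℝ) ^ (n + 1) := by positivity
  have hq1 : (1 / 2 : ℝ) ^ (n + 1) ≤ 1 := pow_le_one₀ (by norm_num) (by norm_num)
  have hN := NUM_qN n
  unfold pe
  set q : ℝ := (1 / 2 : ℝ) ^ (n + 1) with hq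
  set N : ℕ := n * 2 ^ n with hNdef
  have h1 : (0 : ℝ) ≤ 1 - q := by linarith
  have h2 : (1 - q) ^ N ≤ Real.exp (-(n / 2 : ℝ)) := by
    calc (1 - q) ^ N ≤ Real.exp (-q) ^ N := pow_le_pow_left₀ h1 (Real.one_sub_le_exp_neg q) N
      _ = Real.exp (-(n / 2 : ℝ)) := by rw [← Real.exp_nat_mul, ← hN]; ring_nf
  have h3 : ((1 - q) ^ N) ^ 2 ≤ Real.exp (-1) ^ n := by
    calc ((1 - q) ^ N) ^ 2 ≤ Real.exp (-(n / 2 : ℝ)) ^ 2 :=
          pow_le_pow_left₀ (pow_nonneg h1 N) h2 2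
      _ = Real.exp (-1) ^ n := by
          rw [← Real.exp_nat_mul, ← Real.exp_nat_mul]
          congr 1
          push_cast
          ring
  have h4 : 2 * Real.exp (-1) ≤ 3 / 4 := by
    rw [Real.exp_neg]
    have h5 := Real.exp_one_gt_d9
    rw [← div_eq_mul_inv, div_le_iff₀ (Real.exp_pos 1)]
    linarith
  calc (2 : ℝ) ^ n * ((1 - q) ^ N) ^ 2 ≤ 2 ^ n * Real.exp (-1) ^ n :=
        mul_le_mul_of_nonneg_left h3 (by positivity)
    _ = (2 * Real.exp (-1)) ^ n := (mul_pow _ _ _).symm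
    _ ≤ (3 / 4) ^ n := pow_le_pow_left₀ (by positivity) h4 n

theorem t_NUM : S_NUM := by
  refine ⟨fun T => ?_, ?_, ?_⟩
  · have h := (NUM_tendsto T).eventually (gt_mem_nhds (show (0 : ℝ) < 1 / 100 by norm_num))
    filter_upwards [h] with n hn
    have h2 : ((T.eval n : ℕ) : ℝ) * (1 / 2) ^ (n + 1)
        = ((T.eval n : ℕ) : ℝ) * (1 / 2) ^ n * (1 / 2) := by
      rw [pow_succ]; ring
    have h3 : (0 : ℝ) ≤ ((T.eval n : ℕ) : ℝ) * (1 / 2) ^ n := by positivity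
    rw [h2]
    linarith
  · filter_upwards [Filter.eventually_ge_atTop 3] with n hn
    exact NUM_two n hn
  · exact Filter.Eventually.of_forall NUM_three

end Pool.Agent.H490R3.SP
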