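import Pool.Agent.H490R3.SP.T_ONE

/-!
# PR: probabilities of empty cells
-/

set_option autoImplicit false

namespace Pool.Agent.H490R3.SP

open Pool.Agent.NPC Pool.Agent.H628R3.RO MeasureTheory

theorem PR_mem {i : ℕ} {x : List Bool} {κ : Cand} (h : κ ∈ cell i x) :
    (∃ k, κ.1 = 2 * k + i) ∧ κ.2.take x.length = x := by
  unfold cell at h
  rw [Finset.mem_product, Finset.mem_image, Finset.mem_image] at h
  obtain ⟨⟨k, hk, h1⟩, ⟨v, -, h2⟩⟩ := h
  refine ⟨⟨k, h1.symm⟩, ?_⟩
  rw [← h2, List.take_left']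
  rfl

theorem PR_long {i t n : ℕ} {x : List Bool} (hx : x.length = n) (ht : t ≤ n) :
    ∀ κ ∈ cell i x, ∀ j < n + 1, pos κ.1 j κ.2 ∉ {z : List Bool | z.length ≤ t} := by
  intro κ hκ j hj hmem
  have h := ONE_mem hκ
  rw [Set.mem_ofPred_eq, ONE_pos_length] at hmem
  omega

theorem t_PR : S_PR := by
  classical
  intro n t τ hτ ht i x hx
  have h1 := prob_noHit_inter (finite_short t) hτ (n + 1) (cell i x) (PR_long hx ht)
  have h3 : Em i x = NoHit (n + 1) (cell i x) := by rw [Em, hx]
  refine ⟨?_, ?_⟩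
  · rw [ONE_card, hx] at h1
    rw [h3, h1]
    rfl
  · intro i' x' hx' hi hi' hne
    have hd : Disjoint (cell i x) (cell i' x') := by
      rw [Finset.disjoint_left]
      intro κ h1 h2
      obtain ⟨⟨k, hk⟩, h3⟩ := PR_mem h1
      obtain ⟨⟨k', hk'⟩, h4⟩ := PR_mem h2
      apply hne
      have e1 : i = i' := by omega
      have e2 : x = x' := by rw [← h3, ← h4, hx, hx']
      rw [e1, e2]
    have h2 := prob_noHit_inter (finite_short t) hτ (n + 1) (cell i x ∪ cell i' x') (by
      intro κ hκ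
      rcases Finset.mem_union.1 hκ with h | h
      · exact PR_long hx ht κ h
      · exact PR_long hx' ht κ h)
    rw [Finset.card_union_of_disjoint hd, ONE_card, ONE_card, hx, hx'] at h2
    have h4 : NoHit (n + 1) (cell i x ∪ cell i' x') = Em i x ∩ Em i' x' := by
      ext A
      unfold Em NoHit
      rw [hx, hx']
      simp only [Finset.mem_union, Set.mem_ofPred_eq, Set.mem_inter_iff]
      constructor
      · intro h
        exact ⟨fun κ hκ => h κ (Or.inl hκ), fun κ hκ => h κ (Or.inr hκ)⟩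
      · rintro ⟨h, h'⟩ κ (hκ | hκ)
        · exact h κ hκ
        · exact h' κ hκ
    rw [h4] at h2
    rw [h2, pow_add]
    unfold pe
    ring

end Pool.Agent.H490R3.SP
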