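import Pool.Agent.H490R3.SP.Stm

/-! TWO: second moment lemma (helper63) -/

set_option autoImplicit false

namespace Pool.Agent.H490R3.SP

open MeasureTheory

theorem TWO_gen {Ω ι : Type*} [MeasurableSpace Ω] (μ : Measure Ω) [IsFiniteMeasure μ]
    (S : Finset ι) (E : ι → Set Ω) (B τ : Set Ω) (a : ℝ) (hB : MeasurableSet B)
    (hτ : MeasurableSet τ) (hE : ∀ x, MeasurableSet (E x)) (hBτ : B ⊆ τ) (ha : 0 < a)
    (h1 : ∀ x ∈ S, μ.real (τ ∩ E x) = μ.real τ * a)
    (h2 : ∀ x ∈ S, ∀ y ∈ S, x ≠ y → μ.real (τ ∩ (E x ∩ E y)) = μ.real τ * a ^ 2) :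
    ∑ x ∈ S, μ.real (B ∩ E x) ≤ 5 * (S.card * a) * μ.real B +
      (S.card * a + 1) / 20 * μ.real τ := by
  classical
  rcases S.eq_empty_or_nonempty with hS | hS
  · subst hS
    simp only [Finset.sum_empty, Finset.card_empty, Nat.cast_zero, zero_mul, mul_zero, zero_add]
    have := measureReal_nonneg (μ := μ) (s := τ)
    positivity
  have hs : (0 : ℝ) < S.card := by exact_mod_cast hS.card_pos
  obtain ⟨m, hm⟩ : ∃ m : ℝ, m = S.card * a := ⟨_, rfl⟩
  have hm0 : 0 < m := by rw [hm]; positivity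
  have hτ0 : 0 ≤ μ.real τ := measureReal_nonneg
  -- indicator functions
  have hint : ∀ A : Set Ω, MeasurableSet A → Integrable (A.indicator (fun _ => (1 : ℝ))) μ :=
    fun A hA => (integrable_const (1 : ℝ)).indicator hA
  have hval : ∀ A : Set Ω, MeasurableSet A → ∫ ω, A.indicator (fun _ => (1 : ℝ)) ω ∂μ = μ.real A :=
    fun A hA => integral_indicator_one hA
  have hpt : ∀ ω : Ω, ∑ x ∈ S, (B ∩ E x).indicator (fun _ => (1 : ℝ)) ω ≤
      5 * m * B.indicator (fun _ => (1 : ℝ)) ω +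
        (20 * m)⁻¹ * ∑ x ∈ S, ∑ y ∈ S, (τ ∩ (E x ∩ E y)).indicator (fun _ => (1 : ℝ)) ω := by
    intro ω
    by_cases hω : ω ∈ B
    · have hωτ := hBτ hω
      have e1 : ∀ x, (B ∩ E x).indicator (fun _ => (1 : ℝ)) ω =
          (E x).indicator (fun _ => (1 : ℝ)) ω := by
        intro x
        by_cases hx : ω ∈ E x
        · have hx2 : ω ∈ B ∩ E x := Set.mem_inter hω hx
          rw [Set.indicator_of_mem hx, Set.indicator_of_mem hx2]
        · rw [Set.indicator_of_notMem hx, Set.indicator_of_notMem (fun h => hx h.2)]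
      have e2 : ∀ x y, (τ ∩ (E x ∩ E y)).indicator (fun _ => (1 : ℝ)) ω =
          (E x).indicator (fun _ => (1 : ℝ)) ω * (E y).indicator (fun _ => (1 : ℝ)) ω := by
        intro x y
        by_cases hx : ω ∈ E x
        · by_cases hy : ω ∈ E y
          · have hxy : ω ∈ τ ∩ (E x ∩ E y) := Set.mem_inter hωτ (Set.mem_inter hx hy)
            rw [Set.indicator_of_mem hx, Set.indicator_of_mem hy,
              Set.indicator_of_mem hxy, mul_one]
          · rw [Set.indicator_of_notMem hy, mul_zero,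
              Set.indicator_of_notMem (fun h => hy h.2.2)]
        · rw [Set.indicator_of_notMem hx, zero_mul,
            Set.indicator_of_notMem (fun h => hx h.2.1)]
      simp only [e1, e2]
      rw [← Finset.sum_mul_sum, Set.indicator_of_mem hω]
      generalize ∑ x ∈ S, (E x).indicator (fun _ => (1 : ℝ)) ω = N
      have h3 : 0 ≤ (N - 10 * m) ^ 2 := sq_nonneg _
      have h4 : 5 * m * 1 + (20 * m)⁻¹ * (N * N) - N = (20 * m)⁻¹ * (N - 10 * m) ^ 2 := by
        field_simp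
        ring
      have h5 : 0 ≤ (20 * m)⁻¹ * (N - 10 * m) ^ 2 := by positivity
      linarith
    · rw [Finset.sum_eq_zero (fun x _ => Set.indicator_of_notMem (fun h => hω h.1) _)]
      have h3 : ∀ A : Set Ω, 0 ≤ A.indicator (fun _ => (1 : ℝ)) ω :=
        fun A => Set.indicator_nonneg (fun _ _ => zero_le_one) ω
      have h4 : 0 ≤ ∑ x ∈ S, ∑ y ∈ S, (τ ∩ (E x ∩ E y)).indicator (fun _ => (1 : ℝ)) ω :=
        Finset.sum_nonneg fun x _ => Finset.sum_nonneg fun y _ => h3 _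
      have h5 := h3 B
      positivity
  have hmE : ∀ x y, MeasurableSet (τ ∩ (E x ∩ E y)) := fun x y => hτ.inter ((hE x).inter (hE y))
  have hmB : ∀ x, MeasurableSet (B ∩ E x) := fun x => hB.inter (hE x)
  have hI1 : Integrable (fun ω => ∑ x ∈ S, (B ∩ E x).indicator (fun _ => (1 : ℝ)) ω) μ :=
    integrable_finsetSum _ fun x _ => hint _ (hmB x)
  have hI2' : ∀ x ∈ S, Integrable (fun ω => ∑ y ∈ S,
      (τ ∩ (E x ∩ E y)).indicator (fun _ => (1 : ℝ)) ω) μ :=
    fun x _ => integrable_finsetSum _ fun y _ => hint _ (hmE x y)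
  have hI2 : Integrable (fun ω => ∑ x ∈ S, ∑ y ∈ S,
      (τ ∩ (E x ∩ E y)).indicator (fun _ => (1 : ℝ)) ω) μ :=
    integrable_finsetSum _ hI2'
  have hI3 : Integrable (fun ω => 5 * m * B.indicator (fun _ => (1 : ℝ)) ω) μ :=
    (hint _ hB).const_mul _
  have hI4 : Integrable (fun ω => (20 * m)⁻¹ * ∑ x ∈ S, ∑ y ∈ S,
      (τ ∩ (E x ∩ E y)).indicator (fun _ => (1 : ℝ)) ω) μ := hI2.const_mul _
  have h3 := integral_mono hI1 (hI3.add hI4) hpt
  have h3l : ∫ ω, ∑ x ∈ S, (B ∩ E x).indicator (fun _ => (1 : ℝ)) ω ∂μ =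
      ∑ x ∈ S, μ.real (B ∩ E x) := by
    rw [integral_finsetSum _ (fun x _ => hint _ (hmB x))]
    exact Finset.sum_congr rfl fun x _ => hval _ (hmB x)
  have h3r : ∫ ω, ((fun ω => 5 * m * B.indicator (fun _ => (1 : ℝ)) ω) +
      (fun ω => (20 * m)⁻¹ * ∑ x ∈ S, ∑ y ∈ S,
        (τ ∩ (E x ∩ E y)).indicator (fun _ => (1 : ℝ)) ω)) ω ∂μ =
      5 * m * μ.real B + (20 * m)⁻¹ * ∑ x ∈ S, ∑ y ∈ S, μ.real (τ ∩ (E x ∩ E y)) := by
    rw [integral_add' hI3 hI4, integral_const_mul, integral_const_mul, hval _ hB,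
      integral_finsetSum _ hI2']
    congr 2
    refine Finset.sum_congr rfl fun x _ => ?_
    rw [integral_finsetSum _ (fun y _ => hint _ (hmE x y))]
    exact Finset.sum_congr rfl fun y _ => hval _ (hmE x y)
  rw [h3l] at h3
  have h4 : ∑ x ∈ S, ∑ y ∈ S, μ.real (τ ∩ (E x ∩ E y)) ≤ μ.real τ * (m + m ^ 2) := by
    have h5 : ∀ x ∈ S, ∑ y ∈ S, μ.real (τ ∩ (E x ∩ E y)) ≤
        μ.real τ * a + S.card * (μ.real τ * a ^ 2) := by
      intro x hx
      rw [← Finset.add_sum_erase S _ hx]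
      refine add_le_add ?_ ?_
      · rw [Set.inter_self, h1 x hx]
      · refine (Finset.sum_le_sum (f := fun y => μ.real (τ ∩ (E x ∩ E y)))
          (g := fun _ => μ.real τ * a ^ 2) fun y hy => ?_).trans ?_
        · rw [Finset.mem_erase] at hy
          exact (h2 x hx y hy.2 (Ne.symm hy.1)).le
        · rw [Finset.sum_const, nsmul_eq_mul]
          refine mul_le_mul_of_nonneg_right ?_ (by positivity)
          exact_mod_cast Finset.card_erase_le
    refine (Finset.sum_le_sum h5).trans ?_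
    rw [Finset.sum_const, nsmul_eq_mul, hm]
    apply le_of_eq
    ring
  have h6 : (20 * m)⁻¹ * ∑ x ∈ S, ∑ y ∈ S, μ.real (τ ∩ (E x ∩ E y)) ≤
      (m + 1) / 20 * μ.real τ := by
    refine (mul_le_mul_of_nonneg_left h4 (by positivity)).trans (le_of_eq ?_)
    field_simp
    ring
  have h7 := h3.trans_eq h3r
  rw [← hm]
  linarith

open Pool.Agent.NPC Pool.Agent.H628R3.RO in
theorem t_TWO : S_TWO := by
  intro S E B τ a hB hτ hE hBτ ha h1 h2
  haveI : IsProbabilityMeasure randomOracle := isProbabilityMeasure_randomOracle_aux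
  exact TWO_gen randomOracle S E B τ a hB hτ hE hBτ ha h1 h2

end Pool.Agent.H490R3.SP
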