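import Pool.Agent.H490R3.LH.Fin3
import Pool.Agent.H490R3.SP.N3
import Pool.Agent.H490R3.SP.T_NPC
import Pool.Agent.H490R3.SP.T_NUM
import Pool.Agent.H490R3.SP.T_PR
import Pool.Agent.H490R3.SP.T_TWO
import Pool.Agent.H490R3.SP.T_BC

/-!
# Separation properties relative to a random oracle: all parts
-/

set_option autoImplicit false

namespace Pool.Agent.H490R3.SP

open Pool.Agent.NPC Pool.Agent.H628R3.RO MeasureTheory

/-- `coNP` does not have the separation property relative to almost every oracle. -/
theorem conp_sep : ∀ᵐ X ∂randomOracle, ¬ CoNPSep X :=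
  main_sep t_NPC (t_BC t_PR t_NUM) (t_ZER (t_STG t_PR t_TWO t_NUM))

/-- `NP` does not have the separation property relative to almost every oracle. -/
theorem np_sep : ∀ᵐ X ∂randomOracle, ¬ NPSep X := main_np t_TWO t_NUM

end Pool.Agent.H490R3.SP
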