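import Pool.Agent.H490R3.SP.T_ZER

/-!
# The separation property of `NP`, relative to a random oracle
-/

set_option autoImplicit false

namespace Pool.Agent.H490R3.SP

open Pool.Agent.NPC Pool.Agent.H628R3.RO MeasureTheory

/-- `NP` relative to `X` has the separation property. -/
def NPSep (X : Oracle) : Prop :=
  ∀ A B : Set (List Bool), IsNP X A → IsNP X B → Disjoint A B →
    ∃ C : Set (List Bool), IsNP X C ∧ IsCoNP X C ∧ A ⊆ C ∧ Disjoint B C

/-- the candidates of the small cell `i` of the string `x` -/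
def sc (i : ℕ) (x : List Bool) : Finset Cand :=
  {i} ×ˢ ((Finset.univ : Finset (Fin x.length → Bool)).image (fun v => x ++ List.ofFn v))

/-- the number of bits -/
def mN (n : ℕ) : ℕ := n + (n - n / 3)

/-- the small cell `i` of the string `x` is empty: there is no hit -/
def En (i : ℕ) (x : List Bool) : Set Oracle := NoHit (mN x.length) (sc i x)

/-- the strings of length at least `l₀` whose small cell `i` is not empty -/
def BB (l₀ i : ℕ) (X : Oracle) : Set (List Bool) := {x | l₀ ≤ x.length ∧ X ∉ En i x}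

/-- at stage `n` the two verifiers accept complementary sets, which separate -/
def Gn (V V' : Alg) (p p' : Polynomial ℕ) (n : ℕ) : Set Oracle :=
  {X | ∀ x : List Bool, x.length = n → (X ∈ Ac V p x ↔ X ∉ Ac V' p' x) ∧
    (X ∉ En 0 x → X ∈ Ac V p x) ∧ (X ∉ En 1 x → X ∈ Ac V' p' x)}

/-- the probability that a small cell of a string of length `n` is not empty -/
noncomputable def rN (n : ℕ) : ℝ := 1 - (1 - (1 / 2) ^ mN n) ^ (2 ^ n)

theorem N1_card (i : ℕ) (x : List Bool) : (sc i x).card = 2 ^ x.length := by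
  unfold sc
  rw [Finset.card_product, Finset.card_singleton,
    Finset.card_image_of_injective _
      (fun a b h => List.ofFn_injective (List.append_cancel_left h)), Finset.card_univ]
  simp

theorem N1_mem {i : ℕ} {x : List Bool} {κ : Cand} (h : κ ∈ sc i x) :
    κ.1 = i ∧ κ.2.length = 2 * x.length ∧ κ.2.take x.length = x := by
  unfold sc at h
  rw [Finset.mem_product, Finset.mem_singleton, Finset.mem_image] at h
  obtain ⟨h1, ⟨v, -, h2⟩⟩ := h
  refine ⟨h1, ?_, ?_⟩
  · rw [← h2, List.length_append, List.length_ofFn]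
    omega
  · rw [← h2, List.take_left']
    rfl

theorem N1_mem' {i : ℕ} {x v : List Bool} (hv : v.length = x.length) : (i, x ++ v) ∈ sc i x := by
  unfold sc
  rw [Finset.mem_product, Finset.mem_singleton, Finset.mem_image]
  refine ⟨rfl, fun j => v.get (Fin.cast hv.symm j), Finset.mem_univ _, ?_⟩
  simp only [List.append_cancel_left_eq]
  apply List.ext_get
  · simp [hv]
  · intro k h1 h2
    simp

theorem N1_measEn (i : ℕ) (x : List Bool) : MeasurableSet (En i x) := M2.measurableSet_noHit _ _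

theorem N1_long {i t n : ℕ} {x : List Bool} (hx : x.length = n) (ht : t ≤ n) :
    ∀ κ ∈ sc i x, ∀ j < mN n, pos κ.1 j κ.2 ∉ {z : List Bool | z.length ≤ t} := by
  intro κ hκ j hj hmem
  have h := N1_mem hκ
  rw [Set.mem_ofPred_eq, ONE_pos_length] at hmem
  omega

/-- one cell -/
theorem N1_PR1 {n t : ℕ} {τ : Set Oracle} (hτ : Loc {x | x.length ≤ t} τ) (ht : t ≤ n) (i : ℕ)
    {x : List Bool} (hx : x.length = n) : prob (τ ∩ (En i x)ᶜ) = prob τ * rN n := by
  have h1 := prob_noHit_inter (finite_short t) hτ (mN n) (sc i x) (N1_long hx ht)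
  have h2 := M2.prob_inter_add_compl τ (N1_measEn i x)
  rw [N1_card, hx] at h1
  have h3 : En i x = NoHit (mN n) (sc i x) := by rw [En, hx]
  rw [← h3] at h1
  unfold rN
  linarith

/-- two cells -/
theorem N1_PR2 {n t : ℕ} {τ : Set Oracle} (hτ : Loc {x | x.length ≤ t} τ) (ht : t ≤ n)
    {i i' : ℕ} {x x' : List Bool} (hx : x.length = n) (hx' : x'.length = n)
    (hne : (i, x) ≠ (i', x')) :
    prob (τ ∩ ((En i x)ᶜ ∩ (En i' x')ᶜ)) = prob τ * rN n ^ 2 := by
  classical
  have hd : Disjoint (sc i x) (sc i' x') := by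
    rw [Finset.disjoint_left]
    intro κ h1 h2
    have h3 := N1_mem h1
    have h4 := N1_mem h2
    apply hne
    rw [← h3.1, ← h4.1, ← h3.2.2, ← h4.2.2, hx, hx']
  have h1 := prob_noHit_inter (finite_short t) hτ (mN n) (sc i x ∪ sc i' x') (by
    intro κ hκ
    rcases Finset.mem_union.1 hκ with h | h
    · exact N1_long hx ht κ h
    · exact N1_long hx' ht κ h)
  rw [Finset.card_union_of_disjoint hd, N1_card, N1_card, hx, hx'] at h1
  have h3 : NoHit (mN n) (sc i x ∪ sc i' x') = En i x ∩ En i' x' := by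
    ext A
    unfold En NoHit
    rw [hx, hx']
    simp only [Finset.mem_union, Set.mem_ofPred_eq, Set.mem_inter_iff]
    constructor
    · intro h
      exact ⟨fun κ hκ => h κ (Or.inl hκ), fun κ hκ => h κ (Or.inr hκ)⟩
    · rintro ⟨h, h'⟩ κ (hκ | hκ)
      · exact h κ hκ
      · exact h' κ hκ
  rw [h3] at h1
  have e1 := M2.prob_inter_add_compl (τ ∩ (En i x)ᶜ) (N1_measEn i' x')
  have e2 := M2.prob_inter_add_compl (τ ∩ En i' x') (N1_measEn i x)
  have e3 := N1_PR1 hτ ht i hx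
  have e4 := N1_PR1 hτ ht i' hx'
  have e5 := M2.prob_inter_add_compl τ (N1_measEn i' x')
  have s1 : τ ∩ (En i x)ᶜ ∩ (En i' x')ᶜ = τ ∩ ((En i x)ᶜ ∩ (En i' x')ᶜ) := Set.inter_assoc _ _ _
  have s2 : τ ∩ En i' x' ∩ (En i x)ᶜ = τ ∩ (En i x)ᶜ ∩ En i' x' := by
    ext A; simp only [Set.mem_inter_iff]; tauto
  have s3 : τ ∩ En i' x' ∩ En i x = τ ∩ (En i x ∩ En i' x') := by
    ext A; simp only [Set.mem_inter_iff]; tauto
  rw [s1] at e1
  rw [s2, s3] at e2
  have h4 : (1 - (1 / 2 : ℝ) ^ mN n) ^ (2 ^ n + 2 ^ n) = (1 - rN n) ^ 2 := by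
    unfold rN
    ring
  rw [h4] at h1
  nlinarith

theorem N1_ONE (V : Alg) (p : Polynomial ℕ) (n t : ℕ) (L : List (List Bool)) (ht : t ≤ n)
    (i : ℕ) (x : List Bool) (hx : x.length = n) (hn : 1 ≤ n) :
    prob (Ac V p x ∩ cyl t L ∩ En i x) * rN n ≤ prob (Ac V p x ∩ cyl t L ∩ (En i x)ᶜ) +
      ((V.p.eval (2 * n + 1 + p.eval n) : ℕ) : ℝ) * (1 / 2) ^ mN n * prob (cyl t L) := by
  classical
  set τ := cyl t L with hτdef
  set W := sc i x with hW
  set P := V.p.eval (2 * n + 1 + p.eval n) with hP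
  obtain ⟨R, hR⟩ := ONE_loc V p x
  set R' := max (max R t) (6 * n + 10 + i) with hR'
  have hK : {z : List Bool | z.length ≤ R'}.Finite := finite_short _
  have hm1 : 1 ≤ mN n := by unfold mN; omega
  have hWK : ∀ κ ∈ W, ∀ j < mN n, pos κ.1 j κ.2 ∈ {z : List Bool | z.length ≤ R'} := by
    intro κ hκ j hj
    have h := N1_mem hκ
    rw [Set.mem_ofPred_eq, ONE_pos_length]
    have : 6 * n + 10 + i ≤ R' := le_max_right _ _
    unfold mN at hj
    omega
  have hsubR : {z : List Bool | z.length ≤ R} ⊆ {z : List Bool | z.length ≤ R'} :=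
    fun z (hz : z.length ≤ R) => hz.trans ((le_max_left _ _).trans (le_max_left _ _))
  have hsubt : {z : List Bool | z.length ≤ t} ⊆ {z : List Bool | z.length ≤ R'} :=
    fun z (hz : z.length ≤ t) => hz.trans ((le_max_right _ _).trans (le_max_left _ _))
  have hcyl : Loc {z : List Bool | z.length ≤ t} τ := loc_cyl_aux t L
  have hlong := N1_long (i := i) hx ht
  have hτ' : ∀ (B : Oracle) (h : Finset Cand), h ⊆ W →
      (plant (allSpots (mN n) h) B ∈ τ ↔ B ∈ τ) := by
    intro B h hh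
    apply hcyl
    intro z hz
    unfold plant
    rw [if_neg]
    intro hmem
    obtain ⟨κ, hκ, hs⟩ := M2.mem_allSpots.mp hmem
    obtain ⟨j, hj, rfl⟩ := M2.mem_spots.mp hs
    exact hlong κ (hh hκ) j hj hz
  have hkey : ∀ B ∈ NoHit (mN n) W, B ∈ Ac V p x → ∃ T : Finset Cand, T.card ≤ P ∧
      ∀ h ⊆ W, h.Nonempty → Disjoint h T → plant (allSpots (mN n) h) B ∈ Ac V p x := by
    intro B _ hB
    obtain ⟨w, hw, ho⟩ := hB
    obtain ⟨qb, hqb⟩ := V.out_local
    obtain ⟨Q, hQ1, -, hQ3⟩ := hqb B (pairBits x w)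
    obtain ⟨T, hT1, hT2⟩ := ONE_touch W (mN n) Q
    refine ⟨T, ?_, ?_⟩
    · refine hT1.trans (hQ1.trans ?_)
      rw [length_pairBits, hx]
      rw [hx] at hw
      exact eval_mono V.p (by omega)
    · intro h hh _ hd
      refine ⟨w, hw, ?_⟩
      rw [hQ3 _ (hT2 h hh hd B)]
      exact ho
  have hmain := key_taut hK (Loc.monoM hsubR hR) (Loc.monoM hsubR hR) (Loc.monoM hsubt hcyl) W
    hm1 P hWK hτ' hkey
  have hcard : W.card = 2 ^ n := by rw [hW, N1_card, hx]
  have hE : En i x = NoHit (mN n) W := by rw [En, hx]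
  rw [hcard] at hmain
  rw [← hE] at hmain
  have hq1 : (1 / 2 : ℝ) ^ mN n ≤ 1 := half_pow_le_one _
  have hq0 : (0 : ℝ) < (1 / 2 : ℝ) ^ mN n := by positivity
  have hc1 : (1 - (1 / 2 : ℝ) ^ mN n) ^ (2 ^ n) ≤ 1 := pow_le_one₀ (by linarith) (by linarith)
  have hnn : 0 ≤ prob (Ac V p x ∩ τ ∩ (En i x)ᶜ) + (P : ℝ) * (1 / 2) ^ mN n * prob τ := by
    have h1 := M2.prob_nonneg (Ac V p x ∩ τ ∩ (En i x)ᶜ)
    have h2 := M2.prob_nonneg τ
    positivity
  have h5 := mul_le_mul_of_nonneg_left hc1 hnn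
  rw [mul_one] at h5
  exact hmain.trans h5

end Pool.Agent.H490R3.SP
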