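import Pool.Agent.H490R3.SP.N1

/-!
# The separation property of `NP`: numbers and one stage
-/

set_option autoImplicit false

namespace Pool.Agent.H490R3.SP

open Pool.Agent.NPC Pool.Agent.H628R3.RO MeasureTheory

theorem N2_le (n : ℕ) : rN n ≤ (1 / 2) ^ (n - n / 3) := taut_le n (n - n / 3)

theorem N2_ge (n : ℕ) : (1 / 2 : ℝ) ^ (n - n / 3 + 1) ≤ rN n := taut_ge n (n - n / 3)

theorem N2_pos (n : ℕ) : 0 < rN n := lt_of_lt_of_le (by positivity) (N2_ge n)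

theorem N2_mu {n : ℕ} (hn : 3 ≤ n) : 1 ≤ 2 ^ n * rN n := by
  have h := N2_ge n
  have h1 : (1 / 2 : ℝ) ^ n ≤ (1 / 2) ^ (n - n / 3 + 1) :=
    pow_le_pow_of_le_one (by norm_num) (by norm_num) (by omega)
  have h2 : (2 : ℝ) ^ n * (1 / 2) ^ n = 1 := by
    rw [← mul_pow]; norm_num
  have h3 : (0 : ℝ) < 2 ^ n := by positivity
  calc (1 : ℝ) = 2 ^ n * (1 / 2) ^ n := h2.symm
    _ ≤ 2 ^ n * rN n := mul_le_mul_of_nonneg_left (h1.trans h) h3.le

/-- the probability that both cells of some string of length `n` are not empty -/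
theorem N2_sum (n : ℕ) : 2 ^ n * rN n ^ 2 ≤ (1 / 2 : ℝ) ^ (n / 3) := by
  have h := N2_le n
  have h1 : rN n ^ 2 ≤ ((1 / 2) ^ (n - n / 3)) ^ 2 := pow_le_pow_left₀ (N2_pos n).le h 2
  rw [← pow_mul] at h1
  have h2 : (1 / 2 : ℝ) ^ ((n - n / 3) * 2) ≤ (1 / 2) ^ (n + n / 3) :=
    pow_le_pow_of_le_one (by norm_num) (by norm_num) (by omega)
  have h3 : (0 : ℝ) < 2 ^ n := by positivity
  have h4 : (2 : ℝ) ^ n * (1 / 2) ^ n = 1 := by
    rw [← mul_pow]; norm_num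
  calc (2 : ℝ) ^ n * rN n ^ 2 ≤ 2 ^ n * (1 / 2) ^ (n + n / 3) :=
        mul_le_mul_of_nonneg_left (h1.trans h2) h3.le
    _ = (2 ^ n * (1 / 2) ^ n) * (1 / 2) ^ (n / 3) := by rw [pow_add]; ring
    _ = (1 / 2 : ℝ) ^ (n / 3) := by rw [h4, one_mul]

/-- the questions are few in comparison with the cells -/
theorem N2_q {n : ℕ} {T : ℝ} (hT0 : 0 ≤ T) (hT : T * (1 / 2) ^ (n + 1) ≤ 1 / 100) :
    T * (1 / 2) ^ mN n ≤ 1 / 25 * rN n := by
  have h := N2_ge n
  have h1 : T * (1 / 2) ^ n ≤ 1 / 50 := by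
    rw [pow_succ] at hT
    linarith
  have h2 : (0 : ℝ) < (1 / 2) ^ (n - n / 3) := by positivity
  unfold mN
  rw [pow_succ] at h
  rw [pow_add, ← mul_assoc]
  have h3 := mul_le_mul_of_nonneg_right h1 h2.le
  linarith

theorem N2_measGn (V V' : Alg) (p p' : Polynomial ℕ) (n : ℕ) :
    MeasurableSet (Gn V V' p p' n) := by
  have h : Gn V V' p p' n = ⋂ x ∈ St n,
      (((Ac V p x ∩ (Ac V' p' x)ᶜ) ∪ ((Ac V p x)ᶜ ∩ Ac V' p' x)) ∩ (En 0 x ∪ Ac V p x)) ∩
        (En 1 x ∪ Ac V' p' x) := by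
    ext X
    unfold Gn
    simp only [Set.mem_ofPred_eq, Set.mem_iInter, Set.mem_union, Set.mem_inter_iff,
      Set.mem_compl_iff, STG_mem]
    refine forall_congr' fun x => forall_congr' fun _ => ?_
    tauto
  rw [h]
  refine Finset.measurableSet_biInter _ fun x _ => ?_
  have h1 := ONE_meas V p x
  have h2 := ONE_meas V' p' x
  exact ((((h1.inter h2.compl).union (h1.compl.inter h2)).inter
    ((N1_measEn 0 x).union h1)).inter ((N1_measEn 1 x).union h2))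

/-- one verifier at one stage -/
theorem N2_half (h2 : S_TWO) (V : Alg) (p : Polynomial ℕ) (n t : ℕ)
    (L : List (List Bool)) (ht : t ≤ n) (hn : 1 ≤ n) (i : ℕ) (B : Set Oracle)
    (hB : MeasurableSet B) (hBτ : B ⊆ cyl t L)
    (hq : ((V.p.eval (2 * n + 1 + p.eval n) : ℕ) : ℝ) * (1 / 2) ^ (n + 1) ≤ 1 / 100)
    (hsub : ∀ x : List Bool, x.length = n → Ac V p x ∩ cyl t L ∩ (En i x)ᶜ ⊆ B ∩ (En i x)ᶜ) :
    (∑ x ∈ St n, prob (Ac V p x ∩ cyl t L)) * rN n ≤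
      5 * (2 ^ n * rN n) * prob B + (2 ^ n * rN n + 1) / 20 * prob (cyl t L) +
        1 / 25 * (2 ^ n * rN n) * prob (cyl t L) +
        (2 ^ n * rN n) * rN n * prob (cyl t L) := by
  have hτ : Loc {x : List Bool | x.length ≤ t} (cyl t L) := loc_cyl_aux t L
  have hr := N2_pos n
  have hτ0 : 0 ≤ prob (cyl t L) := M2.prob_nonneg _
  have h3 := h2 (St n) (fun x => (En i x)ᶜ) B (cyl t L) (rN n) hB (measurableSet_cyl t L)
    (fun x => (N1_measEn i x).compl) hBτ hr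
    (fun x hx => N1_PR1 hτ ht i (STG_mem.1 hx))
    (fun x hx y hy hxy => N1_PR2 hτ ht (STG_mem.1 hx) (STG_mem.1 hy)
      (fun h => hxy (Prod.ext_iff.1 h).2))
  rw [STG_card] at h3
  push_cast at h3
  have h4 : ∀ x ∈ St n, prob (Ac V p x ∩ cyl t L) * rN n ≤
      prob (B ∩ (En i x)ᶜ) + (1 / 25 * (rN n * prob (cyl t L)) +
        rN n * rN n * prob (cyl t L)) := by
    intro x hx
    have hx' := STG_mem.1 hx
    have h5 := N1_ONE V p n t L ht i x hx' hn
    have h6 := M2.prob_mono (hsub x hx')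
    have h7 := mul_le_mul_of_nonneg_right (N2_q (Nat.cast_nonneg _) hq) hτ0
    have h8 := M2.prob_inter_add_compl (Ac V p x ∩ cyl t L) (N1_measEn i x)
    have h9 : prob (Ac V p x ∩ cyl t L ∩ (En i x)ᶜ) ≤ prob (cyl t L) * rN n := by
      rw [← N1_PR1 hτ ht i hx']
      exact M2.prob_mono fun X hX => ⟨hX.1.2, hX.2⟩
    have h10 := mul_le_mul_of_nonneg_right h9 hr.le
    have h11 : prob (Ac V p x ∩ cyl t L) * rN n = prob (Ac V p x ∩ cyl t L ∩ En i x) * rN n +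
        prob (Ac V p x ∩ cyl t L ∩ (En i x)ᶜ) * rN n := by rw [← h8]; ring
    rw [h11]
    linarith
  rw [Finset.sum_mul]
  refine (Finset.sum_le_sum h4).trans ?_
  rw [Finset.sum_add_distrib, Finset.sum_const, STG_card, nsmul_eq_mul]
  push_cast
  have h9 : (2 : ℝ) ^ n * (1 / 25 * (rN n * prob (cyl t L)) + rN n * rN n * prob (cyl t L)) =
      1 / 25 * (2 ^ n * rN n) * prob (cyl t L) + (2 ^ n * rN n) * rN n * prob (cyl t L) := by
    ring
  rw [h9]
  linarith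

theorem N2_small {n : ℕ} (hn : 12 ≤ n) : rN n ≤ 1 / 100 := by
  refine (N2_le n).trans ?_
  have h : (1 / 2 : ℝ) ^ (n - n / 3) ≤ (1 / 2) ^ 7 :=
    pow_le_pow_of_le_one (by norm_num) (by norm_num) (by omega)
  refine h.trans (by norm_num)

theorem N2_STG (h2 : S_TWO) (h3 : S_NUM) (V V' : Alg) (p p' : Polynomial ℕ) (t : ℕ) :
    ∀ᶠ n : ℕ in Filter.atTop, ∀ L : List (List Bool),
      prob (Gn V V' p p' n ∩ cyl t L) ≤ 99 / 100 * prob (cyl t L) := by
  have e1 := h3.1 (V.p.comp (2 * Polynomial.X + 1 + p))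
  have e2 := h3.1 (V'.p.comp (2 * Polynomial.X + 1 + p'))
  filter_upwards [e1, e2, Filter.eventually_ge_atTop 12, Filter.eventually_ge_atTop t]
    with n f1 f2 f3 f4 L
  rw [Polynomial.eval_comp] at f1 f2
  simp only [Polynomial.eval_add, Polynomial.eval_mul, Polynomial.eval_ofNat, Polynomial.eval_X,
    Polynomial.eval_one] at f1 f2
  by_contra hcon
  rw [not_le] at hcon
  set τ := cyl t L with hτdef
  set G := Gn V V' p p' n with hG
  have hGm : MeasurableSet G := N2_measGn V V' p p' n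
  have hτm : MeasurableSet τ := measurableSet_cyl t L
  set B := τ ∩ Gᶜ with hBdef
  have hBm : MeasurableSet B := hτm.inter hGm.compl
  have hBτ : B ⊆ τ := Set.inter_subset_left
  have hsplit : prob (G ∩ τ) + prob B = prob τ := by
    have h := M2.prob_inter_add_compl τ hGm
    rw [Set.inter_comm τ G] at h
    exact h
  have g1 := N2_half h2 V p n t L f4 (by omega) 1 B hBm hBτ f1 (by
    rintro x hx X ⟨⟨ha, hb⟩, hc⟩
    exact ⟨⟨hb, fun hX => ((hX x hx).1.1 ha) ((hX x hx).2.2 hc)⟩, hc⟩)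
  have g2 := N2_half h2 V' p' n t L f4 (by omega) 0 B hBm hBτ f2 (by
    rintro x hx X ⟨⟨ha, hb⟩, hc⟩
    exact ⟨⟨hb, fun hX => ((hX x hx).1.1 ((hX x hx).2.1 hc)) ha⟩, hc⟩)
  have g3 : (2 : ℝ) ^ n * prob (G ∩ τ) ≤ (∑ x ∈ St n, prob (Ac V p x ∩ τ)) +
      ∑ x ∈ St n, prob (Ac V' p' x ∩ τ) := by
    rw [← Finset.sum_add_distrib]
    have h : ∀ x ∈ St n, prob (G ∩ τ) ≤ prob (Ac V p x ∩ τ) + prob (Ac V' p' x ∩ τ) := by
      intro x hx
      refine (M2.prob_mono ?_).trans (M2.prob_union_le _ _)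
      rintro X ⟨hX, hX'⟩
      by_cases hA : X ∈ Ac V p x
      · exact Or.inl ⟨hA, hX'⟩
      · refine Or.inr ⟨?_, hX'⟩
        by_contra hA'
        exact hA (((hX x (STG_mem.1 hx)).1).2 hA')
    have h' := Finset.sum_le_sum h
    rw [Finset.sum_const, STG_card, nsmul_eq_mul] at h'
    push_cast at h'
    exact h'
  have hpe := N2_pos n
  have g4 := mul_le_mul_of_nonneg_right g3 hpe.le
  rw [add_mul] at g4
  set μ : ℝ := 2 ^ n * rN n with hμ
  have hμ1 : 1 ≤ μ := N2_mu (by omega)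
  have g5 : 2 ^ n * prob (G ∩ τ) * rN n = μ * prob (G ∩ τ) := by rw [hμ]; ring
  rw [g5] at g4
  have hτ0 : 0 ≤ prob τ := M2.prob_nonneg _
  have hB1 : prob B < 1 / 100 * prob τ := by linarith
  have hτp : 0 < prob τ := by
    have := M2.prob_nonneg B
    linarith
  have hμ0 : 0 < μ := by linarith
  -- the contradiction
  have k0 : μ * rN n * prob τ ≤ μ * (1 / 100) * prob τ :=
    mul_le_mul_of_nonneg_right (mul_le_mul_of_nonneg_left (N2_small f3) hμ0.le) hτ0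
  have k1 : μ * prob (G ∩ τ) ≤ 10 * μ * prob B + (μ + 1) / 10 * prob τ +
      2 / 25 * μ * prob τ + 1 / 50 * μ * prob τ := by linarith
  have k2 : 10 * μ * prob B ≤ 10 * μ * (1 / 100 * prob τ) :=
    mul_le_mul_of_nonneg_left hB1.le (by linarith)
  have k3 : μ * (99 / 100 * prob τ) ≤ μ * prob (G ∩ τ) :=
    mul_le_mul_of_nonneg_left hcon.le hμ0.le
  have k4 : prob τ ≤ μ * prob τ := by nlinarith
  nlinarith

end Pool.Agent.H490R3.SP
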