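import Pool.Agent.H490R3.LH.Base
import Pool.Agent.H628R3.RO.M3
import Pool.Agent.H628R3.RO.M4

/-!
# The separation property of `coNP`, relative to a random oracle: objects and statements
-/

set_option autoImplicit false

namespace Pool.Agent.H490R3.SP

open Pool.Agent.NPC Pool.Agent.H628R3.RO MeasureTheory

/-- `coNP` relative to `X` has the separation property. -/
def CoNPSep (X : Oracle) : Prop :=
  ∀ A B : Set (List Bool), IsCoNP X A → IsCoNP X B → Disjoint A B →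
    ∃ C : Set (List Bool), IsNP X C ∧ IsCoNP X C ∧ A ⊆ C ∧ Disjoint B C

/-- the candidates of the cell `i` of the string `x`: a number `2 k + i` with `k < |x|`, and a
string `x ++ v` with `|v| = |x|` -/
def cell (i : ℕ) (x : List Bool) : Finset Cand :=
  ((Finset.range x.length).image (fun k => 2 * k + i)) ×ˢ
    ((Finset.univ : Finset (Fin x.length → Bool)).image (fun v => x ++ List.ofFn v))

/-- the cell `i` of the string `x` is empty: there is no hit -/
def Em (i : ℕ) (x : List Bool) : Set Oracle := NoHit (x.length + 1) (cell i x)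

/-- the strings of length at least `l₀` whose cell `i` is empty -/
def AA (l₀ i : ℕ) (X : Oracle) : Set (List Bool) := {x | l₀ ≤ x.length ∧ X ∈ Em i x}

/-- the verifier accepts `x` -/
def Ac (V : Alg) (p : Polynomial ℕ) (x : List Bool) : Set Oracle :=
  {X | ∃ w : List Bool, w.length ≤ p.eval x.length ∧ V.out X (pairBits x w) = some [true]}

/-- at stage `n` the two verifiers accept complementary sets, which separate -/
def Go (V V' : Alg) (p p' : Polynomial ℕ) (n : ℕ) : Set Oracle :=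
  {X | ∀ x : List Bool, x.length = n → (X ∈ Ac V p x ↔ X ∉ Ac V' p' x) ∧
    (X ∈ Em 0 x → X ∈ Ac V p x) ∧ (X ∈ Em 1 x → X ∈ Ac V' p' x)}

/-- the probability that a cell of a string of length `n` is empty -/
noncomputable def pe (n : ℕ) : ℝ := (1 - (1 / 2) ^ (n + 1)) ^ (n * 2 ^ n)

/-- all strings of length `n` -/
def St (n : ℕ) : Finset (List Bool) := (Finset.univ : Finset (Fin n → Bool)).image List.ofFn

/-- NPC: the sets are in `coNP` -/
def S_NPC : Prop := ∀ (l₀ i : ℕ) (X : Oracle), IsCoNP X (AA l₀ i X)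

/-- NUM: numbers -/
def S_NUM : Prop := (∀ T : Polynomial ℕ, ∀ᶠ n : ℕ in Filter.atTop,
    ((T.eval n : ℕ) : ℝ) * (1 / 2) ^ (n + 1) ≤ 1 / 100) ∧
  (∀ᶠ n : ℕ in Filter.atTop, 1 ≤ 2 ^ n * pe n) ∧
  (∀ᶠ n : ℕ in Filter.atTop, 2 ^ n * pe n ^ 2 ≤ (3 / 4) ^ n)

/-- PR: probabilities -/
def S_PR : Prop := ∀ (n t : ℕ) (τ : Set Oracle), Loc {x | x.length ≤ t} τ → t ≤ n →
    ∀ (i : ℕ) (x : List Bool), x.length = n → prob (τ ∩ Em i x) = prob τ * pe n ∧
      (∀ (i' : ℕ) (x' : List Bool), x'.length = n → i < 2 → i' < 2 → (i, x) ≠ (i', x') →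
        prob (τ ∩ (Em i x ∩ Em i' x')) = prob τ * pe n ^ 2)

/-- TWO: second moments, for arbitrary events -/
def S_TWO : Prop := ∀ (S : Finset (List Bool)) (E : List Bool → Set Oracle) (B τ : Set Oracle)
    (a : ℝ), MeasurableSet B → MeasurableSet τ → (∀ x, MeasurableSet (E x)) → B ⊆ τ → 0 < a →
    (∀ x ∈ S, prob (τ ∩ E x) = prob τ * a) →
    (∀ x ∈ S, ∀ y ∈ S, x ≠ y → prob (τ ∩ (E x ∩ E y)) = prob τ * a ^ 2) →
    ∑ x ∈ S, prob (B ∩ E x) ≤ 5 * (S.card * a) * prob B + (S.card * a + 1) / 20 * prob τ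

/-- ONE: one string, one verifier -/
def S_ONE : Prop := ∀ (V : Alg) (p : Polynomial ℕ) (n t : ℕ) (L : List (List Bool)), t ≤ n →
    ∀ (i : ℕ) (x : List Bool), x.length = n → i < 2 →
    prob ((Ac V p x)ᶜ ∩ cyl t L) * pe n ≤ prob ((Ac V p x)ᶜ ∩ cyl t L ∩ Em i x) +
      ((V.p.eval (2 * n + 1 + p.eval n) : ℕ) : ℝ) * (1 / 2) ^ (n + 1) * (prob (cyl t L) * pe n)

/-- STG: one stage -/
def S_STG : Prop := ∀ (V V' : Alg) (p p' : Polynomial ℕ) (t : ℕ), ∀ᶠ n : ℕ in Filter.atTop,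
    ∀ L : List (List Bool), prob (Go V V' p p' n ∩ cyl t L) ≤ 99 / 100 * prob (cyl t L)

/-- BC: almost surely, the sets are disjoint from some length on -/
def S_BC : Prop := ∀ᵐ X ∂randomOracle, ∃ l₀ : ℕ, Disjoint (AA l₀ 0 X) (AA l₀ 1 X)

/-- ZER: no pair of verifiers is good from some length on -/
def S_ZER : Prop := ∀ᵐ X ∂randomOracle, ∀ (V V' : Alg) (p p' : Polynomial ℕ) (l₀ : ℕ),
    ¬ ∀ n ≥ l₀, X ∈ Go V V' p p' n

end Pool.Agent.H490R3.SP
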