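import Pool.Agent.H490R3.SP.Stm

/-!
# ONE: one string, one verifier
-/

set_option autoImplicit false

namespace Pool.Agent.H490R3.SP

open Pool.Agent.NPC Pool.Agent.H628R3.RO MeasureTheory

theorem ONE_touch (W : Finset Cand) (m : ℕ) (Q : Finset (List Bool)) : ∃ T : Finset Cand,
    T.card ≤ Q.card ∧ ∀ h ⊆ W, Disjoint h T → ∀ (B : Oracle), ∀ q ∈ Q,
      plant (allSpots m h) B q = B q := by
  classical
  refine ⟨W.filter (fun κ => ∃ i < m, pos κ.1 i κ.2 ∈ Q), ?_, ?_⟩
  · have h1 : ∀ κ ∈ W.filter (fun κ => ∃ i < m, pos κ.1 i κ.2 ∈ Q),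
        ∃ i, i < m ∧ pos κ.1 i κ.2 ∈ Q := by
      intro κ hκ
      exact (Finset.mem_filter.mp hκ).2
    choose! i hi using h1
    refine Finset.card_le_card_of_injOn (fun κ => pos κ.1 (i κ) κ.2)
      (fun κ hκ => (hi κ hκ).2) ?_
    intro κ _ κ' _ he
    obtain ⟨h1, -, h3⟩ := M2.pos_inj he
    exact Prod.ext h1 h3
  · intro h hW hd B q hq
    unfold plant
    rw [if_neg]
    intro hmem
    obtain ⟨κ, hκ, hs⟩ := M2.mem_allSpots.mp hmem
    obtain ⟨i, hi, rfl⟩ := M2.mem_spots.mp hs
    exact Finset.disjoint_left.mp hd hκ (Finset.mem_filter.mpr ⟨hW hκ, i, hi, hq⟩)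

theorem ONE_card (i : ℕ) (x : List Bool) : (cell i x).card = x.length * 2 ^ x.length := by
  unfold cell
  rw [Finset.card_product,
    Finset.card_image_of_injective _ (fun (a b : ℕ) (h : 2 * a + i = 2 * b + i) => by omega),
    Finset.card_image_of_injective _
      (fun a b h => List.ofFn_injective (List.append_cancel_left h)), Finset.card_range,
    Finset.card_univ]
  simp

theorem ONE_mem {i : ℕ} {x : List Bool} {κ : Cand} (h : κ ∈ cell i x) :
    κ.1 < 2 * x.length + i ∧ κ.2.length = 2 * x.length := by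
  unfold cell at h
  rw [Finset.mem_product, Finset.mem_image, Finset.mem_image] at h
  obtain ⟨⟨k, hk, h1⟩, ⟨v, -, h2⟩⟩ := h
  rw [Finset.mem_range] at hk
  rw [← h1, ← h2, List.length_append, List.length_ofFn]
  omega

theorem ONE_pos_length (c i : ℕ) (w : List Bool) :
    (pos c i w).length = c + i + w.length + 2 := by
  unfold pos
  simp only [List.length_append, List.length_replicate, List.length_cons]
  omega

theorem ONE_loc (V : Alg) (p : Polynomial ℕ) (x : List Bool) : ∃ R : ℕ,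
    Loc {z | z.length ≤ R} (Ac V p x) := by
  obtain ⟨qb, hqb⟩ := V.out_local
  refine ⟨qb.eval (2 * x.length + 1 + p.eval x.length), ?_⟩
  have key : ∀ A A' : Oracle, (∀ z : List Bool,
      z.length ≤ qb.eval (2 * x.length + 1 + p.eval x.length) → A z = A' z) →
      A ∈ Ac V p x → A' ∈ Ac V p x := by
    rintro A A' hA ⟨w, hw, ho⟩
    refine ⟨w, hw, ?_⟩
    obtain ⟨Q, -, hQ2, hQ3⟩ := hqb A (pairBits x w)
    rw [hQ3 A' ?_]
    · exact ho
    · intro q hq
      symm
      apply hA
      have h1 := hQ2 q hq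
      rw [length_pairBits] at h1
      have h2 := eval_mono qb (show 2 * x.length + 1 + w.length ≤
        2 * x.length + 1 + p.eval x.length by omega)
      omega
  intro A A' hA
  exact ⟨key A A' hA, key A' A fun z hz => (hA z hz).symm⟩

theorem ONE_meas (V : Alg) (p : Polynomial ℕ) (x : List Bool) : MeasurableSet (Ac V p x) := by
  obtain ⟨R, h⟩ := ONE_loc V p x
  exact measurableSet_of_loc (finite_short R) h

theorem ONE_measEm (i : ℕ) (x : List Bool) : MeasurableSet (Em i x) :=
  M2.measurableSet_noHit _ _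

theorem t_ONE : S_ONE := by
  intro V p n t L ht i x hx hi
  classical
  set τ := cyl t L with hτdef
  set W := cell i x with hW
  set P := V.p.eval (2 * n + 1 + p.eval n) with hP
  obtain ⟨R, hR⟩ := ONE_loc V p x
  set R' := max (max R t) (6 * n + 10) with hR'
  have hK : {z : List Bool | z.length ≤ R'}.Finite := finite_short _
  have hWK : ∀ κ ∈ W, ∀ j < n + 1, pos κ.1 j κ.2 ∈ {z : List Bool | z.length ≤ R'} := by
    intro κ hκ j hj
    have h := ONE_mem hκ
    rw [Set.mem_ofPred_eq, ONE_pos_length]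
    have : 6 * n + 10 ≤ R' := le_max_right _ _
    omega
  have hsubR : {z : List Bool | z.length ≤ R} ⊆ {z : List Bool | z.length ≤ R'} :=
    fun z (hz : z.length ≤ R) => hz.trans ((le_max_left _ _).trans (le_max_left _ _))
  have hsubt : {z : List Bool | z.length ≤ t} ⊆ {z : List Bool | z.length ≤ R'} :=
    fun z (hz : z.length ≤ t) => hz.trans ((le_max_right _ _).trans (le_max_left _ _))
  have hcyl : Loc {z : List Bool | z.length ≤ t} τ := loc_cyl_aux t L
  have hlong : ∀ κ ∈ W, ∀ j < n + 1, pos κ.1 j κ.2 ∉ {z : List Bool | z.length ≤ t} := by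
    intro κ hκ j hj hmem
    have h := ONE_mem hκ
    rw [Set.mem_ofPred_eq, ONE_pos_length] at hmem
    omega
  have hτ' : ∀ (B : Oracle) (h : Finset Cand), h ⊆ W →
      (plant (allSpots (n + 1) h) B ∈ τ ↔ B ∈ τ) := by
    intro B h hh
    apply hcyl
    intro z hz
    unfold plant
    rw [if_neg]
    intro hmem
    obtain ⟨κ, hκ, hs⟩ := M2.mem_allSpots.mp hmem
    obtain ⟨j, hj, rfl⟩ := M2.mem_spots.mp hs
    exact hlong κ (hh hκ) j hj hz
  have hkey : ∀ B ∈ NoHit (n + 1) W, B ∉ (Ac V p x)ᶜ → ∃ T : Finset Cand, T.card ≤ P ∧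
      ∀ h ⊆ W, Disjoint h T → plant (allSpots (n + 1) h) B ∉ (Ac V p x)ᶜ := by
    intro B _ hB
    rw [Set.notMem_compl_iff] at hB
    obtain ⟨w, hw, ho⟩ := hB
    obtain ⟨qb, hqb⟩ := V.out_local
    obtain ⟨Q, hQ1, -, hQ3⟩ := hqb B (pairBits x w)
    obtain ⟨T, hT1, hT2⟩ := ONE_touch W (n + 1) Q
    refine ⟨T, ?_, ?_⟩
    · refine hT1.trans (hQ1.trans ?_)
      rw [length_pairBits, hx]
      rw [hx] at hw
      exact eval_mono V.p (by omega)
    · intro h hh hd
      rw [Set.notMem_compl_iff]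
      refine ⟨w, hw, ?_⟩
      rw [hQ3 _ (hT2 h hh hd B)]
      exact ho
  have hcompl : Loc {z : List Bool | z.length ≤ R'} (Ac V p x)ᶜ :=
    M2.Loc.compl (Loc.monoM hsubR hR)
  have hmain := key_sat hK hcompl hcompl (Loc.monoM hsubt hcyl) W (m := n + 1) (by omega) P
    hWK hτ' hkey
  have hcard : W.card = n * 2 ^ n := by rw [hW, ONE_card, hx]
  have hE : Em i x = NoHit (n + 1) W := by rw [Em, hx]
  have hno : prob (τ ∩ NoHit (n + 1) W) = prob τ * pe n := by
    rw [prob_noHit_inter (finite_short t) hcyl (n + 1) W hlong, hcard]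
    rfl
  rw [hcard, hno] at hmain
  rw [hE]
  exact hmain

end Pool.Agent.H490R3.SP
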