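import Pool.Agent.H490R3.SP.T_ONE

/-!
# STG: one stage
-/

set_option autoImplicit false

namespace Pool.Agent.H490R3.SP

open Pool.Agent.NPC Pool.Agent.H628R3.RO MeasureTheory

theorem STG_mem {n : ℕ} {x : List Bool} : x ∈ St n ↔ x.length = n := by
  unfold St
  rw [Finset.mem_image]
  constructor
  · rintro ⟨v, -, hv⟩
    rw [← hv, List.length_ofFn]
  · rintro rfl
    exact ⟨fun i => x.get i, Finset.mem_univ _, List.ofFn_get _⟩

theorem STG_card (n : ℕ) : (St n).card = 2 ^ n := by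
  unfold St
  rw [Finset.card_image_of_injective _ List.ofFn_injective]
  simp

theorem STG_measGo (V V' : Alg) (p p' : Polynomial ℕ) (n : ℕ) :
    MeasurableSet (Go V V' p p' n) := by
  have h : Go V V' p p' n = ⋂ x ∈ St n,
      (((Ac V p x ∩ (Ac V' p' x)ᶜ) ∪ ((Ac V p x)ᶜ ∩ Ac V' p' x)) ∩ ((Em 0 x)ᶜ ∪ Ac V p x)) ∩
        ((Em 1 x)ᶜ ∪ Ac V' p' x) := by
    ext X
    unfold Go
    simp only [Set.mem_ofPred_eq, Set.mem_iInter, Set.mem_union, Set.mem_inter_iff,
      Set.mem_compl_iff, STG_mem]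
    refine forall_congr' fun x => forall_congr' fun _ => ?_
    tauto
  rw [h]
  refine Finset.measurableSet_biInter _ fun x _ => ?_
  have h1 := ONE_meas V p x
  have h2 := ONE_meas V' p' x
  exact ((((h1.inter h2.compl).union (h1.compl.inter h2)).inter
    ((ONE_measEm 0 x).compl.union h1)).inter ((ONE_measEm 1 x).compl.union h2))

theorem STG_pos (n : ℕ) : 0 < pe n := by
  unfold pe
  have h : (1 / 2 : ℝ) ^ (n + 1) ≤ 1 / 2 := by
    rw [pow_succ]
    have := half_pow_le_one n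
    linarith
  exact pow_pos (by linarith) _

/-- one verifier at one stage -/
theorem STG_half (h1 : S_PR) (h2 : S_TWO) (V : Alg) (p : Polynomial ℕ) (n t : ℕ)
    (L : List (List Bool)) (ht : t ≤ n) (i : ℕ) (hi : i < 2) (B : Set Oracle)
    (hB : MeasurableSet B) (hBτ : B ⊆ cyl t L)
    (hq : ((V.p.eval (2 * n + 1 + p.eval n) : ℕ) : ℝ) * (1 / 2) ^ (n + 1) ≤ 1 / 100)
    (hsub : ∀ x : List Bool, x.length = n → (Ac V p x)ᶜ ∩ cyl t L ∩ Em i x ⊆ B ∩ Em i x) :
    (∑ x ∈ St n, prob ((Ac V p x)ᶜ ∩ cyl t L)) * pe n ≤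
      5 * (2 ^ n * pe n) * prob B + (2 ^ n * pe n + 1) / 20 * prob (cyl t L) +
        1 / 100 * (2 ^ n * pe n) * prob (cyl t L) := by
  have hτ : Loc {x : List Bool | x.length ≤ t} (cyl t L) := loc_cyl_aux t L
  have hpe := STG_pos n
  have hτ0 : 0 ≤ prob (cyl t L) := M2.prob_nonneg _
  have h3 := h2 (St n) (fun x => Em i x) B (cyl t L) (pe n) hB (measurableSet_cyl t L)
    (fun x => ONE_measEm i x) hBτ hpe
    (fun x hx => (h1 n t _ hτ ht i x (STG_mem.1 hx)).1)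
    (fun x hx y hy hxy => (h1 n t _ hτ ht i x (STG_mem.1 hx)).2 i y (STG_mem.1 hy) hi hi
      (fun h => hxy (Prod.ext_iff.1 h).2))
  rw [STG_card] at h3
  push_cast at h3
  have h4 : ∀ x ∈ St n, prob ((Ac V p x)ᶜ ∩ cyl t L) * pe n ≤
      prob (B ∩ Em i x) + 1 / 100 * (prob (cyl t L) * pe n) := by
    intro x hx
    have h5 := t_ONE V p n t L ht i x (STG_mem.1 hx) hi
    have h6 := M2.prob_mono (hsub x (STG_mem.1 hx))
    have h7 : 0 ≤ prob (cyl t L) * pe n := mul_nonneg hτ0 hpe.le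
    have h8 := mul_le_mul_of_nonneg_right hq h7
    linarith
  rw [Finset.sum_mul]
  refine (Finset.sum_le_sum h4).trans ?_
  rw [Finset.sum_add_distrib, Finset.sum_const, STG_card, nsmul_eq_mul]
  push_cast
  have h9 : (2 : ℝ) ^ n * (1 / 100 * (prob (cyl t L) * pe n)) =
      1 / 100 * (2 ^ n * pe n) * prob (cyl t L) := by ring
  rw [h9]
  linarith

theorem t_STG (h1 : S_PR) (h2 : S_TWO) (h3 : S_NUM) : S_STG := by
  intro V V' p p' t
  have e1 := h3.1 (V.p.comp (2 * Polynomial.X + 1 + p))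
  have e2 := h3.1 (V'.p.comp (2 * Polynomial.X + 1 + p'))
  filter_upwards [e1, e2, h3.2.1, Filter.eventually_ge_atTop t] with n f1 f2 f3 f4 L
  rw [Polynomial.eval_comp] at f1 f2
  simp only [Polynomial.eval_add, Polynomial.eval_mul, Polynomial.eval_ofNat, Polynomial.eval_X,
    Polynomial.eval_one] at f1 f2
  by_contra hcon
  rw [not_le] at hcon
  set τ := cyl t L with hτdef
  set G := Go V V' p p' n with hG
  have hGm : MeasurableSet G := STG_measGo V V' p p' n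
  have hτm : MeasurableSet τ := measurableSet_cyl t L
  set B := τ ∩ Gᶜ with hBdef
  have hBm : MeasurableSet B := hτm.inter hGm.compl
  have hBτ : B ⊆ τ := Set.inter_subset_left
  have hsplit : prob (G ∩ τ) + prob B = prob τ := by
    have h := M2.prob_inter_add_compl τ hGm
    rw [Set.inter_comm τ G] at h
    exact h
  have g1 := STG_half h1 h2 V p n t L f4 0 (by norm_num) B hBm hBτ f1 (by
    rintro x hx X ⟨⟨ha, hb⟩, hc⟩
    exact ⟨⟨hb, fun hX => ha ((hX x hx).2.1 hc)⟩, hc⟩)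
  have g2 := STG_half h1 h2 V' p' n t L f4 1 (by norm_num) B hBm hBτ f2 (by
    rintro x hx X ⟨⟨ha, hb⟩, hc⟩
    exact ⟨⟨hb, fun hX => ha ((hX x hx).2.2 hc)⟩, hc⟩)
  have g3 : (2 : ℝ) ^ n * prob (G ∩ τ) ≤ (∑ x ∈ St n, prob ((Ac V p x)ᶜ ∩ τ)) +
      ∑ x ∈ St n, prob ((Ac V' p' x)ᶜ ∩ τ) := by
    rw [← Finset.sum_add_distrib]
    have h : ∀ x ∈ St n, prob (G ∩ τ) ≤ prob ((Ac V p x)ᶜ ∩ τ) + prob ((Ac V' p' x)ᶜ ∩ τ) := by
      intro x hx
      refine (M2.prob_mono ?_).trans (M2.prob_union_le _ _)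
      rintro X ⟨hX, hX'⟩
      by_cases hA : X ∈ Ac V p x
      · exact Or.inr ⟨((hX x (STG_mem.1 hx)).1).1 hA, hX'⟩
      · exact Or.inl ⟨hA, hX'⟩
    have h' := Finset.sum_le_sum h
    rw [Finset.sum_const, STG_card, nsmul_eq_mul] at h'
    push_cast at h'
    exact h'
  have hpe := STG_pos n
  have g4 := mul_le_mul_of_nonneg_right g3 hpe.le
  rw [add_mul] at g4
  set μ : ℝ := 2 ^ n * pe n with hμ
  have g5 : 2 ^ n * prob (G ∩ τ) * pe n = μ * prob (G ∩ τ) := by rw [hμ]; ring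
  rw [g5] at g4
  have hτ0 : 0 ≤ prob τ := M2.prob_nonneg _
  have hB1 : prob B < 1 / 100 * prob τ := by linarith
  have hτp : 0 < prob τ := by
    have := M2.prob_nonneg B
    linarith
  -- the contradiction
  have k1 : μ * prob (G ∩ τ) ≤ 10 * μ * prob B + (μ + 1) / 10 * prob τ +
      1 / 50 * μ * prob τ := by linarith
  have hμ0 : 0 < μ := by linarith
  have k2 : 10 * μ * prob B ≤ 10 * μ * (1 / 100 * prob τ) :=
    mul_le_mul_of_nonneg_left hB1.le (by linarith)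
  have k3 : μ * (99 / 100 * prob τ) ≤ μ * prob (G ∩ τ) :=
    mul_le_mul_of_nonneg_left hcon.le hμ0.le
  have k4 : prob τ ≤ μ * prob τ := by nlinarith
  nlinarith

end Pool.Agent.H490R3.SP
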