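import Pool.Agent.H490R3.SP.T_STG

/-!
# ZER: no pair of verifiers is good from some length on
-/

set_option autoImplicit false

namespace Pool.Agent.H490R3.SP

open Pool.Agent.NPC Pool.Agent.H628R3.RO MeasureTheory

instance ZER_prob : IsProbabilityMeasure randomOracle := isProbabilityMeasure_randomOracle_aux

theorem ZER_zero (h1 : S_STG) (V V' : Alg) (p p' : Polynomial ℕ) (l₀ : ℕ) :
    prob {X : Oracle | ∀ n ≥ l₀, X ∈ Go V V' p p' n} = 0 := by
  set S : Set Oracle := {X : Oracle | ∀ n ≥ l₀, X ∈ Go V V' p p' n} with hS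
  have hSm : MeasurableSet S := by
    have h : S = ⋂ n, ⋂ (_ : n ≥ l₀), Go V V' p p' n := by
      ext X
      simp [hS]
    rw [h]
    exact MeasurableSet.iInter fun n => MeasurableSet.iInter fun _ => STG_measGo V V' p p' n
  by_contra hne
  have hpos : 0 < prob S := lt_of_le_of_ne (M2.prob_nonneg S) (Ne.symm hne)
  obtain ⟨t, L, hτ, hL⟩ := exists_cyl hSm hpos (δ := 1 / 200) (by norm_num)
  obtain ⟨n, hn1, hn2⟩ := ((h1 V V' p p' t).and (Filter.eventually_ge_atTop l₀)).exists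
  have hs := hn1 L
  have h2 : prob (S ∩ cyl t L) ≤ prob (Go V V' p p' n ∩ cyl t L) :=
    M2.prob_mono (Set.inter_subset_inter_left _ (fun X hX => hX n hn2))
  linarith

theorem t_ZER (h1 : S_STG) : S_ZER := by
  have hp : Countable (Polynomial ℕ) := by
    have : Function.Injective (fun p : Polynomial ℕ => (p.toFinsupp.coeff : ℕ →₀ ℕ)) := by
      intro p q h
      ext n
      exact DFunLike.congr_fun h n
    exact this.countable
  have h : ∀ᵐ X ∂randomOracle, ∀ m : (Alg × Alg) × (Polynomial ℕ × Polynomial ℕ) × ℕ,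
      ¬ ∀ n ≥ m.2.2, X ∈ Go m.1.1 m.1.2 m.2.1.1 m.2.1.2 n := by
    rw [ae_all_iff]
    intro m
    rw [ae_iff]
    have h0 := ZER_zero h1 m.1.1 m.1.2 m.2.1.1 m.2.1.2 m.2.2
    unfold prob at h0
    rw [measureReal_eq_zero_iff] at h0
    simpa only [not_not] using h0
  filter_upwards [h] with X hX V V' p p' l₀
  exact hX ((V, V'), (p, p'), l₀)

/-- a language in `NP` is accepted by a verifier -/
theorem ZER_np {X : Oracle} {C : Set (List Bool)} (h : IsNP X C) :
    ∃ (V : Alg) (p : Polynomial ℕ), ∀ x, x ∈ C ↔ X ∈ Ac V p x := by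
  obtain ⟨F, p, ⟨V, hV⟩, hC⟩ := h
  refine ⟨V, p, fun x => (hC x).trans ?_⟩
  unfold Ac
  simp only [Set.mem_ofPred_eq, hV, Option.some.injEq]

/-- the theorem, from the parts -/
theorem main_sep (h1 : S_NPC) (h2 : S_BC) (h3 : S_ZER) :
    ∀ᵐ X ∂randomOracle, ¬ CoNPSep X := by
  unfold S_BC at h2
  unfold S_ZER at h3
  filter_upwards [h2, h3] with X ⟨l₀, hd⟩ hz hsep
  obtain ⟨C, hC1, hC2, hC3, hC4⟩ := hsep _ _ (h1 l₀ 0 X) (h1 l₀ 1 X) hd
  obtain ⟨V, p, hV⟩ := ZER_np hC1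
  obtain ⟨V', p', hV'⟩ := ZER_np hC2
  refine hz V V' p p' l₀ fun n hn x hx => ⟨?_, ?_, ?_⟩
  · rw [← hV x, ← hV' x, Set.mem_compl_iff, not_not]
  · intro h
    exact (hV x).1 (hC3 ⟨by omega, h⟩)
  · intro h
    refine (hV' x).1 ?_
    rw [Set.mem_compl_iff]
    exact Set.disjoint_left.1 hC4 ⟨by omega, h⟩

end Pool.Agent.H490R3.SP
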